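import Pool.Agent.Helper18.CPC.St

/-! CPC, module PC: every point has a countable clopen pi-character. -/

set_option autoImplicit false

open TopologicalSpace Topology Filter Set

namespace Pool.Agent.Helper80.CPC

open Pool.Agent.Helper18.CPC

universe u

variable {R : Type u}

private theorem mem_l {V : ℕ → Set (Pt R)} {U : Set (Pt R)} :
    U ∈ (atTop : Filter ℕ).bind (fun k => 𝓟 (V k)) ↔ ∀ᶠ k in atTop, V k ⊆ U := by
  rw [Filter.mem_bind']
  rfl

private theorem two {s : List (R × ℕ)} {a b : R × ℕ} {p : Pt R} :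
    p ∈ D (s ++ [a, b]) ↔ p ∈ D s ∧ p.τ s.length = some a ∧ p.τ (s.length + 1) = some b := by
  rw [mem_D_append]
  refine and_congr_right fun _ => ⟨fun h => ⟨?_, ?_⟩, fun h i hi => ?_⟩
  · simpa using h 0 (by simp)
  · simpa using h 1 (by simp)
  · have hi' : i < 2 := by simpa using hi
    interval_cases i
    · simpa using h.1
    · simpa using h.2

/-- Module PC. -/
theorem m_PC (h1 : hFN.{u}) (h2 : hIN.{u}) : hPC.{u} := by
  intro R _ _ hj p
  rcases cases_pt p with ⟨s, hp⟩ | ⟨w, hp⟩
  · rw [hp]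
    refine ⟨fun k => D (s ++ [(p.r, k)]), fun n => ⟨isClopen_D _, ⟨fin (s ++ [(p.r, n)]) p.r,
      fin_mem_D _ _⟩⟩, fun U hU => ?_⟩
    have key := h1 R ((atTop : Filter ℕ).bind (fun k => 𝓟 (D (s ++ [(p.r, k)])))) s p.r ?_ ?_ ?_
    · exact mem_l.1 (key hU)
    · exact mem_l.2 (Eventually.of_forall fun k q hq => (mem_D_snoc.1 hq).1)
    · intro c
      refine mem_l.2 ?_
      filter_upwards [eventually_gt_atTop c.2] with k hk q hq hq'
      have e1 := (mem_D_snoc.1 hq).2
      have e2 := (mem_D_snoc.1 hq').2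
      rw [e1] at e2
      have e3 := Option.some.inj e2
      rw [← e3] at hk
      exact lt_irrefl _ hk
    · intro W hW
      refine mem_l.2 (Eventually.of_forall fun k q hq => ?_)
      have e1 := (mem_D_snoc.1 hq).2
      show val s.length q ∈ W
      rw [val_some e1]
      exact mem_of_mem_nhds hW
  · rw [hp]
    obtain ⟨σ, hσ1, hσ2⟩ := extraction_of_frequently_atTop (hj w)
    refine ⟨fun n => D (pre w (σ n) ++ [Data.j w, (p.r, 0)]), fun n => ⟨isClopen_D _,
      ⟨fin (pre w (σ n) ++ [Data.j w, (p.r, 0)]) p.r, fin_mem_D _ _⟩⟩, fun U hU => ?_⟩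
    have key := h2 R ((atTop : Filter ℕ).bind
      (fun n => 𝓟 (D (pre w (σ n) ++ [Data.j w, (p.r, 0)])))) w p.r ?_ ?_
    · exact mem_l.1 (key hU)
    · intro n
      refine mem_l.2 ?_
      filter_upwards [eventually_ge_atTop n] with k hk q hq
      have e1 := mem_D_pre.1 (two.1 hq).1
      refine mem_D_pre.2 fun i hi => e1 i ?_
      have := hσ1.id_le k
      simp only [id] at this
      omega
    · intro W hW
      refine mem_l.2 (Eventually.of_forall fun k q hq => ?_)
      obtain ⟨e1, e2, e3⟩ := two.1 hq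
      rw [length_pre] at e2 e3
      show G w q ∈ W
      rw [G_at_pos (mem_D_pre.1 e1) (by
        rw [e2]
        intro h
        exact hσ2 k (Option.some.inj h).symm) e2, val_some e3]
      exact mem_of_mem_nhds hW

end Pool.Agent.Helper80.CPC
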